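import Pool.Agent.Q71.AA.Coc

/-!
# MP_e62806_an, Q1 (affirmative answer)

`G = F₂ × ℤ` and `f = (a - 1)²`, where `a` generates the central factor `ℤ`.

* `G` is not amenable, and it is inner amenable (so `G` belongs to the class `𝒢` of the problem).
* The principal algebraic action of `G` on the dual `X_f` of `ℤG/ℤGf` is weakly mixing, and it is
  essentially free.
* `H¹(G, ℤG/ℤGf) ≠ 0`.
-/

set_option autoImplicit false

open MeasureTheory Q71.AA

namespace Pool.Agent.Results.MP_e62806_an.CentralFactor

/-- Let `G = F₂ × ℤ`, let `a` be the generator of the factor `ℤ` and `f = (a - 1)² ∈ ℤG`. Then `G` is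
inner amenable and not amenable, the action of `G` on the Pontryagin dual of `ℤG/ℤGf` with its Haar
measure is weakly mixing and essentially free, and `H¹(G, ℤG/ℤGf) ≠ 0`. -/
theorem result :
    let G := FreeGroup (Fin 2) × Multiplicative ℤ
    let f : MonoidAlgebra ℤ G := (MonoidAlgebra.of ℤ G (1, Multiplicative.ofAdd 1) - 1) ^ 2
    ¬ Amenable G ∧ InnerAmenable G ∧
      (∀ g, MeasurePreserving (pact f g) (haar (Pm G f)) (haar (Pm G f))) ∧
      WeaklyMixing (haar (Pm G f)) (pact f) ∧
      (∀ g : G, g ≠ 1 → haar (Pm G f) {χ | pact f g χ = χ} = 0) ∧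
      H1NeZero G (Pm G f) :=
  ⟨not_amenable, innerAmenable, pact_mp ff, weak_mixing, ess_free, h1⟩

end Pool.Agent.Results.MP_e62806_an.CentralFactor
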